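import Pool.Agent.Lib_helper52.EPS.Defs

set_option autoImplicit false

namespace Pool.Agent.EPS

open MeasureTheory Set Filter Topology

variable {d : ℕ}

theorem f2_Jn (α γ : Measure (EuclideanSpace ℝ (Fin d))) [IsProbabilityMeasure α]
    [IsProbabilityMeasure γ] (hγ : γ ≪ volume) :
    Jn α γ = (α.prod volume).withDensity (fun p => γ.rnDeriv volume (p.2 - p.1)) := by
  have hγ' : (volume : Measure (EuclideanSpace ℝ (Fin d))).withDensity (γ.rnDeriv volume) = γ :=
    Measure.withDensity_rnDeriv_eq γ volume hγ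
  have h1 : α.prod γ = (α.prod volume).withDensity (fun z => γ.rnDeriv volume z.2) := by
    have := prod_withDensity_right (μ := α)
      (ν := (volume : Measure (EuclideanSpace ℝ (Fin d)))) (Measure.measurable_rnDeriv γ volume)
    rw [hγ'] at this
    exact this
  ext s hs
  have hm : Measurable (fun p : EuclideanSpace ℝ (Fin d) × EuclideanSpace ℝ (Fin d) =>
      (p.1, p.1 + p.2)) := by fun_prop
  rw [Jn, Measure.map_apply hm hs, h1, withDensity_apply _ (hm hs), withDensity_apply _ hs]
  have hg : Measurable (fun p : EuclideanSpace ℝ (Fin d) × EuclideanSpace ℝ (Fin d) =>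
      γ.rnDeriv volume (p.2 - p.1)) :=
    (Measure.measurable_rnDeriv γ volume).comp (by fun_prop)
  have h2 := (measurePreserving_prod_add α
    (volume : Measure (EuclideanSpace ℝ (Fin d)))).setLIntegral_comp_preimage hs hg
  rw [← h2]
  refine lintegral_congr fun z => ?_
  simp

theorem f2_u_meas (α γ : Measure (EuclideanSpace ℝ (Fin d))) [IsProbabilityMeasure α] :
    Measurable (fun y => ∫⁻ a, γ.rnDeriv volume (y - a) ∂α) := by
  have hg : Measurable (fun p : EuclideanSpace ℝ (Fin d) × EuclideanSpace ℝ (Fin d) =>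
      γ.rnDeriv volume (p.1 - p.2)) :=
    (Measure.measurable_rnDeriv γ volume).comp (by fun_prop)
  exact hg.lintegral_prod_right'

theorem f2_conv (α γ : Measure (EuclideanSpace ℝ (Fin d))) [IsProbabilityMeasure α]
    [IsProbabilityMeasure γ] (hγ : γ ≪ volume) :
    α.conv γ = (volume : Measure (EuclideanSpace ℝ (Fin d))).withDensity
      (fun y => ∫⁻ a, γ.rnDeriv volume (y - a) ∂α) := by
  have hγ' : (volume : Measure (EuclideanSpace ℝ (Fin d))).withDensity (γ.rnDeriv volume) = γ :=
    Measure.withDensity_rnDeriv_eq γ volume hγ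
  have hgm := Measure.measurable_rnDeriv γ (volume : Measure (EuclideanSpace ℝ (Fin d)))
  refine Measure.ext_of_lintegral _ fun φ hφ => ?_
  rw [Measure.lintegral_conv hφ,
    lintegral_withDensity_eq_lintegral_mul _ (f2_u_meas α γ) hφ]
  have h1 : ∀ x, ∫⁻ y, φ (x + y) ∂γ = ∫⁻ y, γ.rnDeriv volume (y - x) * φ y := by
    intro x
    have e1 : ∫⁻ y, φ (x + y) ∂γ = ∫⁻ y, γ.rnDeriv volume y * φ (x + y) := by
      conv_lhs => rw [← hγ']
      rw [lintegral_withDensity_eq_lintegral_mul _ hgm (by fun_prop)]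
      rfl
    rw [e1, ← lintegral_add_left_eq_self (fun y => γ.rnDeriv volume (y - x) * φ y) x]
    refine lintegral_congr fun y => ?_
    simp
  simp_rw [h1]
  rw [lintegral_lintegral_swap]
  · refine lintegral_congr fun y => ?_
    rw [Pi.mul_apply]
    have hm1 : Measurable (fun a => γ.rnDeriv volume (y - a)) := hgm.comp (by fun_prop)
    rw [lintegral_mul_const _ hm1]
  · have : Measurable (fun p : EuclideanSpace ℝ (Fin d) × EuclideanSpace ℝ (Fin d) =>
        γ.rnDeriv volume (p.2 - p.1) * φ p.2) :=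
      (hgm.comp (by fun_prop)).mul (by fun_prop)
    exact this.aemeasurable

/-- the law of `(A, A + C)` has the density `g (y - a) / u y` with respect to the product -/
theorem llr_Jn (α γ : Measure (EuclideanSpace ℝ (Fin d))) [IsProbabilityMeasure α]
    [IsProbabilityMeasure γ] (hγ : γ ≪ volume) :
    Jn α γ ≪ α.prod (α.conv γ) ∧
    ∀ᵐ p ∂(Jn α γ), llr (Jn α γ) (α.prod (α.conv γ)) p =
      Real.log ((γ.rnDeriv volume (p.2 - p.1)).toReal) -
        Real.log (((α.conv γ).rnDeriv volume p.2).toReal) := by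
  set u : EuclideanSpace ℝ (Fin d) → ENNReal :=
    fun y => ∫⁻ a, γ.rnDeriv volume (y - a) ∂α with hu
  have hum : Measurable u := f2_u_meas α γ
  have hgm := Measure.measurable_rnDeriv γ (volume : Measure (EuclideanSpace ℝ (Fin d)))
  have hJ := f2_Jn α γ hγ
  have hC : α.conv γ = (volume : Measure (EuclideanSpace ℝ (Fin d))).withDensity u :=
    f2_conv α γ hγ
  have hg2 : Measurable (fun p : EuclideanSpace ℝ (Fin d) × EuclideanSpace ℝ (Fin d) =>
      γ.rnDeriv volume (p.2 - p.1)) := hgm.comp (by fun_prop)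
  have hu2 : Measurable (fun p : EuclideanSpace ℝ (Fin d) × EuclideanSpace ℝ (Fin d) =>
      u p.2) := hum.comp measurable_snd
  have hP : α.prod (α.conv γ) = (α.prod volume).withDensity (fun p => u p.2) := by
    rw [hC]; exact prod_withDensity_right hum
  have : IsProbabilityMeasure (α.conv γ) := inferInstance
  -- Jn is absolutely continuous w.r.t. the base measure
  have hJb : Jn α γ ≪ α.prod (volume : Measure (EuclideanSpace ℝ (Fin d))) := by
    rw [hJ]; exact withDensity_absolutelyContinuous _ _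
  -- the second marginal of Jn
  have hsnd : ∀ s : Set (EuclideanSpace ℝ (Fin d)), MeasurableSet s →
      Jn α γ (Prod.snd ⁻¹' s) = (α.conv γ) s := by
    intro s hs
    have hm : Measurable (fun p : EuclideanSpace ℝ (Fin d) × EuclideanSpace ℝ (Fin d) =>
      (p.1, p.1 + p.2)) := by fun_prop
    rw [Jn, Measure.map_apply hm (measurable_snd hs), Measure.conv,
      Measure.map_apply (by fun_prop) hs]
    rfl
  have hzero : Jn α γ {p | u p.2 = 0} = 0 := by
    have e1 : {p : EuclideanSpace ℝ (Fin d) × EuclideanSpace ℝ (Fin d) | u p.2 = 0} =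
        Prod.snd ⁻¹' (u ⁻¹' {0}) := rfl
    rw [e1, hsnd _ (hum (measurableSet_singleton 0)), hC,
      withDensity_apply _ (hum (measurableSet_singleton 0))]
    rw [setLIntegral_congr_fun (hum (measurableSet_singleton 0))
      (g := fun _ => 0) (fun x hx => hx)]
    simp
  -- absolute continuity
  have hAC : Jn α γ ≪ α.prod (α.conv γ) := by
    refine Measure.AbsolutelyContinuous.mk fun s hs hs0 => ?_
    rw [hP, withDensity_apply _ hs] at hs0
    rw [lintegral_eq_zero_iff hu2] at hs0
    have h1 : ∀ᵐ p ∂(α.prod (volume : Measure (EuclideanSpace ℝ (Fin d)))), p ∈ s → u p.2 = 0 := by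
      have := (ae_restrict_iff' hs).mp hs0
      exact this
    have h2 : ∀ᵐ p ∂(Jn α γ), p ∈ s → u p.2 = 0 := hJb.ae_le h1
    have h3 : ∀ᵐ p ∂(Jn α γ), u p.2 ≠ 0 := by
      rw [ae_iff]; simpa using hzero
    have h4 : ∀ᵐ p ∂(Jn α γ), p ∉ s := by
      filter_upwards [h2, h3] with p hp2 hp3 hps
      exact hp3 (hp2 hps)
    rw [ae_iff] at h4
    simpa using h4
  refine ⟨hAC, ?_⟩
  -- u is finite almost everywhere
  have hutop : ∀ᵐ y ∂(volume : Measure (EuclideanSpace ℝ (Fin d))), u y < ⊤ := by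
    refine ae_lt_top hum ?_
    have : ∫⁻ y, u y = 1 := by
      have h1 : (α.conv γ) univ = 1 := measure_univ
      rw [hC, withDensity_apply _ MeasurableSet.univ] at h1
      simpa using h1
    rw [this]; exact ENNReal.one_ne_top
  -- the density
  set w : EuclideanSpace ℝ (Fin d) × EuclideanSpace ℝ (Fin d) → ENNReal :=
    fun p => γ.rnDeriv volume (p.2 - p.1) / u p.2 with hw
  have hwm : Measurable w := hg2.div hu2
  have hquasi : ∀ {P : EuclideanSpace ℝ (Fin d) → Prop},
      (∀ᵐ y ∂(volume : Measure (EuclideanSpace ℝ (Fin d))), P y) →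
      ∀ᵐ p ∂(α.prod (volume : Measure (EuclideanSpace ℝ (Fin d)))), P p.2 := by
    intro P hP'
    exact (Measure.quasiMeasurePreserving_snd (μ := α)
      (ν := (volume : Measure (EuclideanSpace ℝ (Fin d))))).ae hP'
  have hg0 : ∀ᵐ p ∂(α.prod (volume : Measure (EuclideanSpace ℝ (Fin d)))),
      u p.2 = 0 → γ.rnDeriv volume (p.2 - p.1) = 0 := by
    have hms : MeasurableSet {p : EuclideanSpace ℝ (Fin d) × EuclideanSpace ℝ (Fin d) |
        u p.2 = 0} := hu2 (measurableSet_singleton 0)
    rw [hJ, withDensity_apply _ hms, lintegral_eq_zero_iff hg2] at hzero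
    exact (ae_restrict_iff' hms).mp hzero
  have hden : Jn α γ = (α.prod (α.conv γ)).withDensity w := by
    rw [hP, ← withDensity_mul _ hu2 hwm, hJ]
    refine withDensity_congr_ae ?_
    filter_upwards [hg0, hquasi hutop] with p hp0 hptop
    rw [Pi.mul_apply, hw]
    by_cases h0 : u p.2 = 0
    · rw [hp0 h0, h0]; simp
    · exact (ENNReal.mul_div_cancel h0 hptop.ne).symm
  have hrn : (Jn α γ).rnDeriv (α.prod (α.conv γ)) =ᵐ[Jn α γ] w := by
    have h1 := Measure.rnDeriv_withDensity (α.prod (α.conv γ)) hwm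
    rw [← hden] at h1
    exact hAC.ae_le h1
  have hcr : ∀ᵐ p ∂(Jn α γ), (α.conv γ).rnDeriv volume p.2 = u p.2 := by
    have h1 := Measure.rnDeriv_withDensity (volume : Measure (EuclideanSpace ℝ (Fin d))) hum
    rw [← hC] at h1
    exact hJb.ae_le (hquasi h1)
  have hupos : ∀ᵐ p ∂(Jn α γ), u p.2 ≠ 0 := by
    rw [ae_iff]; simpa using hzero
  have hufin : ∀ᵐ p ∂(Jn α γ), u p.2 < ⊤ := hJb.ae_le (hquasi hutop)
  have hgpos : ∀ᵐ p ∂(Jn α γ), γ.rnDeriv volume (p.2 - p.1) ≠ 0 := by
    rw [ae_iff, hJ]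
    have hms : MeasurableSet {p : EuclideanSpace ℝ (Fin d) × EuclideanSpace ℝ (Fin d) |
        ¬ γ.rnDeriv volume (p.2 - p.1) ≠ 0} := by
      have : {p : EuclideanSpace ℝ (Fin d) × EuclideanSpace ℝ (Fin d) |
        ¬ γ.rnDeriv volume (p.2 - p.1) ≠ 0} =
          (fun p => γ.rnDeriv volume (p.2 - p.1)) ⁻¹' {0} := by
        ext p; simp
      rw [this]; exact hg2 (measurableSet_singleton 0)
    rw [withDensity_apply _ hms, setLIntegral_congr_fun hms (g := fun _ => 0)]
    · simp
    · intro p hp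
      simpa using hp
  have hgfin : ∀ᵐ p ∂(Jn α γ), γ.rnDeriv volume (p.2 - p.1) < ⊤ := by
    -- a.e. with respect to the base measure, by translation
    have h1 : ∀ᵐ y ∂(volume : Measure (EuclideanSpace ℝ (Fin d))), γ.rnDeriv volume y < ⊤ :=
      Measure.rnDeriv_lt_top γ volume
    have h2 : ∀ᵐ p ∂(α.prod (volume : Measure (EuclideanSpace ℝ (Fin d)))),
        γ.rnDeriv volume (p.2 - p.1) < ⊤ := by
      have hm : MeasurableSet {p : EuclideanSpace ℝ (Fin d) × EuclideanSpace ℝ (Fin d) |
          γ.rnDeriv volume (p.2 - p.1) < ⊤} := measurableSet_lt hg2 measurable_const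
      have h3 := (Measure.ae_prod_iff_ae_ae (μ := α)
        (ν := (volume : Measure (EuclideanSpace ℝ (Fin d)))) hm).mpr
      refine h3 (Filter.Eventually.of_forall fun x => ?_)
      have := (measurePreserving_sub_right
        (volume : Measure (EuclideanSpace ℝ (Fin d))) x).quasiMeasurePreserving.ae h1
      exact this
    exact hJb.ae_le h2
  filter_upwards [hrn, hcr, hupos, hufin, hgpos, hgfin] with p h1 h2 h3 h4 h5 h6
  rw [llr, h1, h2, hw]
  simp only
  rw [ENNReal.toReal_div, Real.log_div]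
  · exact (ENNReal.toReal_pos h5 h6.ne).ne'
  · exact (ENNReal.toReal_pos h3 h4.ne).ne'

end Pool.Agent.EPS
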