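import Pool.Agent.Lib_helper52.EPS.Defs
import Pool.Agent.Lib_helper89.EPS.A0
import Pool.Agent.Lib_helper33.EPS.A3
import Pool.Agent.Lib_helper31.EPS.A4
import Pool.Agent.Lib_helper2.EPS.A5
import Pool.Agent.Lib_helper73.EPS.C0
set_option autoImplicit false

namespace Pool.Agent.EPS

open MeasureTheory Set Filter Topology

theorem a9_der {a b a' b' : ℝ} {f g T U : ℝ → ℝ}
    (hT : Tr a b f T) (hU : Tr a' b' g U) (c s y x : ℝ) :
    HasDerivAt (fun x => Th c s T U x y) (Dx c s f g T U x y) x := by
  have h1 : HasDerivAt (fun x => c * x - s * y) c x := by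
    have := ((hasDerivAt_id x).const_mul c).sub_const (s * y)
    simpa using this
  have h2 : HasDerivAt (fun x => s * x + c * y) s x := by
    have := ((hasDerivAt_id x).const_mul s).add_const (c * y)
    simpa using this
  have h3 := (HasDerivAt.comp x (hT.der (c * x - s * y)) h1)
  have h4 := (HasDerivAt.comp x (hU.der (s * x + c * y)) h2)
  have h5 := h3.add h4
  have e : ga (c * x - s * y) / f (T (c * x - s * y)) * c +
      ga (s * x + c * y) / g (U (s * x + c * y)) * s = Dx c s f g T U x y := by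
    unfold Dx; ring
  rw [e] at h5
  exact h5

/-- the main inequality of the transport proof -/
theorem gibbs_step {a b m M a' b' m' M' : ℝ} {f g T U : ℝ → ℝ} (hf : Nice a b m M f)
    (hg : Nice a' b' m' M' g) (hT : Tr a b f T) (hU : Tr a' b' g U) (c s : ℝ) (hc : 0 < c)
    (hs : 0 < s)
    (hD : Integrable (fun p : ℝ × ℝ => Real.log (Dx c s f g T U p.1 p.2) * (ga p.1 * ga p.2)))
    (hS : Integrable (fun p : ℝ × ℝ => Real.log (cv f g (Th c s T U p.1 p.2)) *
      (ga p.1 * ga p.2))) :
    (∫ p : ℝ × ℝ, Real.log (Dx c s f g T U p.1 p.2) * (ga p.1 * ga p.2)) +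
      (∫ p : ℝ × ℝ, Real.log (cv f g (Th c s T U p.1 p.2)) * (ga p.1 * ga p.2)) ≤
      ∫ z, Real.log (ga z) * ga z := by
  obtain ⟨hTm, hTc, hTd⟩ := tr_cont hf hT
  obtain ⟨hUm, hUc, hUd⟩ := tr_cont hg hU
  have hDpos : ∀ x y, 0 < Dx c s f g T U x y := by
    intro x y
    have h1 := (tr_bd hf hT (c * x - s * y)).1
    have h2 := (tr_bd hg hU (s * x + c * y)).1
    unfold Dx
    positivity
  have hThmem : ∀ x y, Th c s T U x y ∈ Ioo (a + a') (b + b') := by
    intro x y
    have h1 := hT.mem (c * x - s * y)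
    have h2 := hU.mem (s * x + c * y)
    exact ⟨add_lt_add h1.1 h2.1, add_lt_add h1.2 h2.2⟩
  have hcvpos : ∀ x y, 0 < cv f g (Th c s T U x y) := fun x y =>
    cv_pos hf hg _ (hThmem x y)
  have hB := bdc_cv (nice_bdc hf) (nice_bdc hg)
  have hBi := bdc_int hB
  have hB1 : ∫ t, cv f g t = 1 := by
    rw [cv_mass (nice_bdc hf) (nice_bdc hg), hf.one, hg.one, mul_one]
  -- measurability
  have hThc : Continuous (fun p : ℝ × ℝ => Th c s T U p.1 p.2) := by
    unfold Th
    exact (hTc.comp (by fun_prop)).add (hUc.comp (by fun_prop))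
  have hDxc : Continuous (fun p : ℝ × ℝ => Dx c s f g T U p.1 p.2) := by
    unfold Dx
    have h1 : Continuous (fun p : ℝ × ℝ =>
        (ga (c * p.1 - s * p.2) / f (T (c * p.1 - s * p.2)))) :=
      hTd.comp (by fun_prop : Continuous (fun p : ℝ × ℝ => c * p.1 - s * p.2))
    have h2 : Continuous (fun p : ℝ × ℝ =>
        (ga (s * p.1 + c * p.2) / g (U (s * p.1 + c * p.2)))) :=
      hUd.comp (by fun_prop : Continuous (fun p : ℝ × ℝ => s * p.1 + c * p.2))
    exact (continuous_const.mul h1).add (continuous_const.mul h2)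
  have hGm : Measurable (fun p : ℝ × ℝ =>
      ga p.2 * (cv f g (Th c s T U p.1 p.2) * Dx c s f g T U p.1 p.2)) :=
    (ga_cont.measurable.comp measurable_snd).mul
      ((hB.meas.comp hThc.measurable).mul hDxc.measurable)
  have hsub : ∀ y, Integrable (fun x => cv f g (Th c s T U x y) * Dx c s f g T U x y) ∧
      ∫ x, cv f g (Th c s T U x y) * Dx c s f g T U x y ≤ ∫ x, cv f g x := fun y =>
    sub_le (Θ := fun x => Th c s T U x y) (D := fun x => Dx c s f g T U x y)
      (fun x => a9_der hT hU c s y x)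
      (fun x => hDpos x y) hB.nn hBi
  have hcd : ∀ x y, 0 ≤ cv f g (Th c s T U x y) * Dx c s f g T U x y := fun x y =>
    (mul_pos (hcvpos x y) (hDpos x y)).le
  have hinner : ∀ y, ∫ x, ‖ga y * (cv f g (Th c s T U x y) * Dx c s f g T U x y)‖ ≤ ga y := by
    intro y
    have e : ∀ x, ‖ga y * (cv f g (Th c s T U x y) * Dx c s f g T U x y)‖ =
        ga y * (cv f g (Th c s T U x y) * Dx c s f g T U x y) := by
      intro x
      rw [Real.norm_of_nonneg (mul_nonneg (ga_pos y).le (hcd x y))]
    simp_rw [e]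
    rw [integral_const_mul]
    have := (hsub y).2
    rw [hB1] at this
    have h2 := ga_pos y
    nlinarith
  have hGi : Integrable (fun p : ℝ × ℝ =>
      ga p.2 * (cv f g (Th c s T U p.1 p.2) * Dx c s f g T U p.1 p.2)) := by
    rw [Measure.volume_eq_prod, integrable_prod_iff' hGm.aestronglyMeasurable]
    refine ⟨Filter.Eventually.of_forall fun y => ((hsub y).1.const_mul (ga y)), ?_⟩
    refine Integrable.mono' ga_int.1 ?_ ?_
    · have h1 : StronglyMeasurable (fun p : ℝ × ℝ =>
        ‖ga p.1 * (cv f g (Th c s T U p.2 p.1) * Dx c s f g T U p.2 p.1)‖) :=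
        (hGm.comp measurable_swap).norm.stronglyMeasurable
      exact (h1.integral_prod_right).aestronglyMeasurable
    · refine Filter.Eventually.of_forall fun y => ?_
      rw [Real.norm_of_nonneg (integral_nonneg fun x => norm_nonneg _)]
      exact hinner y
  have hG1 : ∫ p : ℝ × ℝ, ga p.2 * (cv f g (Th c s T U p.1 p.2) * Dx c s f g T U p.1 p.2) ≤ 1 := by
    rw [Measure.volume_eq_prod, integral_prod_symm]
    · have hle : ∀ y, ∫ x, ga y * (cv f g (Th c s T U x y) * Dx c s f g T U x y) ≤ ga y := by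
        intro y
        refine le_trans (le_of_eq ?_) (hinner y)
        refine integral_congr_ae (Filter.Eventually.of_forall fun x => ?_)
        exact (Real.norm_of_nonneg (mul_nonneg (ga_pos y).le (hcd x y))).symm
      calc ∫ y, ∫ x, ga y * (cv f g (Th c s T U x y) * Dx c s f g T U x y)
          ≤ ∫ y, ga y := by
            refine integral_mono_of_nonneg (Filter.Eventually.of_forall fun y =>
              integral_nonneg fun x => mul_nonneg (ga_pos y).le (hcd x y)) ga_int.1
              (Filter.Eventually.of_forall hle)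
        _ = 1 := ga_int.2
    · rw [← Measure.volume_eq_prod]; exact hGi
  -- the Gaussian part
  have hlogga : ∀ x, Real.log (ga x) = -(Real.pi * x ^ 2) := fun x => by
    unfold ga; rw [Real.log_exp]
  have hwi : Integrable (fun p : ℝ × ℝ => ga p.1 * ga p.2) := by
    rw [Measure.volume_eq_prod]
    exact ga_int.1.mul_prod ga_int.1
  have hw1 : ∫ p : ℝ × ℝ, ga p.1 * ga p.2 = 1 := by
    rw [Measure.volume_eq_prod, integral_prod_mul, ga_int.2, mul_one]
  have hLg : Integrable (fun z => Real.log (ga z) * ga z) := by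
    refine Integrable.mono' (ga_int1.const_mul Real.pi) ?_ ?_
    · refine Continuous.aestronglyMeasurable ?_
      simp_rw [hlogga]
      have := ga_cont
      fun_prop
    · refine Filter.Eventually.of_forall fun x => ?_
      have h1 := ga_pos x
      have h2 := Real.pi_pos
      rw [hlogga, norm_mul, Real.norm_of_nonneg h1.le, norm_neg,
        Real.norm_of_nonneg (by positivity)]
      have : Real.pi * x ^ 2 * ga x ≤ Real.pi * ((1 + x ^ 2) * ga x) := by
        nlinarith [mul_pos h2 h1]
      exact this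
  have hL3 : Integrable (fun p : ℝ × ℝ => Real.log (ga p.1) * (ga p.1 * ga p.2)) := by
    have h1 : Integrable (fun p : ℝ × ℝ => (Real.log (ga p.1) * ga p.1) * ga p.2) := by
      rw [Measure.volume_eq_prod]
      exact hLg.mul_prod ga_int.1
    refine h1.congr (Filter.Eventually.of_forall fun p => ?_)
    simp only [mul_assoc]
  have hL3v : ∫ p : ℝ × ℝ, Real.log (ga p.1) * (ga p.1 * ga p.2) =
      ∫ z, Real.log (ga z) * ga z := by
    have h1 : ∫ p : ℝ × ℝ, (Real.log (ga p.1) * ga p.1) * ga p.2 =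
        ∫ z, Real.log (ga z) * ga z := by
      rw [Measure.volume_eq_prod,
        integral_prod_mul (fun x => Real.log (ga x) * ga x) ga, ga_int.2, mul_one]
    rw [← h1]
    refine integral_congr_ae (Filter.Eventually.of_forall fun p => ?_)
    simp only [mul_assoc]
  rw [← hL3v, ← integral_add hD hS]
  have key : ∫ p : ℝ × ℝ, (Real.log (Dx c s f g T U p.1 p.2) * (ga p.1 * ga p.2) +
      Real.log (cv f g (Th c s T U p.1 p.2)) * (ga p.1 * ga p.2)) ≤
      ∫ p : ℝ × ℝ, (Real.log (ga p.1) * (ga p.1 * ga p.2) +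
        (ga p.2 * (cv f g (Th c s T U p.1 p.2) * Dx c s f g T U p.1 p.2)
          - ga p.1 * ga p.2)) := by
    refine integral_mono (hD.add hS) (hL3.add (hGi.sub hwi)) fun p => ?_
    have h1 := ga_pos p.1
    have h2 := ga_pos p.2
    have h3 := hDpos p.1 p.2
    have h4 := hcvpos p.1 p.2
    set A := cv f g (Th c s T U p.1 p.2)
    set B := Dx c s f g T U p.1 p.2
    have h5 : Real.log (A * B / ga p.1) ≤ A * B / ga p.1 - 1 :=
      Real.log_le_sub_one_of_pos (by positivity)
    rw [Real.log_div (mul_pos h4 h3).ne' h1.ne', Real.log_mul h4.ne' h3.ne'] at h5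
    have h6 : (Real.log A + Real.log B - Real.log (ga p.1)) * (ga p.1 * ga p.2) ≤
        (A * B / ga p.1 - 1) * (ga p.1 * ga p.2) :=
      mul_le_mul_of_nonneg_right h5 (mul_pos h1 h2).le
    have h7 : (A * B / ga p.1 - 1) * (ga p.1 * ga p.2) = ga p.2 * (A * B) - ga p.1 * ga p.2 := by
      field_simp
    simp only
    rw [h7] at h6
    linarith
  refine key.trans ?_
  have hGw : Integrable (fun p : ℝ × ℝ =>
      ga p.2 * (cv f g (Th c s T U p.1 p.2) * Dx c s f g T U p.1 p.2) - ga p.1 * ga p.2) :=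
    hGi.sub hwi
  rw [integral_add hL3 hGw, integral_sub hGi hwi, hw1]
  linarith

end Pool.Agent.EPS
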